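import Mathlib

set_option autoImplicit false
set_option linter.unusedVariables false

/-!
# MP_e87155_co: a graph whose rainbow saturation number is smaller than its saturation number

For `H = P₄ ∪ K₂` (a path on four vertices and a disjoint edge) and all `n ≥ 21` we show
`sat*(n, H) ≤ 9 < 10 ≤ sat(n, H)`.
-/

namespace Pool.Agent.Results.MP_e87155_co.RainbowBelow

open Finset SimpleGraph

/-- `G` contains a copy of `H` (as a subgraph). -/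
def Contains {W V : Type} (H : SimpleGraph W) (G : SimpleGraph V) : Prop :=
  ∃ f : W → V, Function.Injective f ∧ ∀ a b, H.Adj a b → G.Adj (f a) (f b)

/-- `G` is `H`-saturated: it contains no copy of `H`, but adding any non-edge creates one. -/
def Saturated {W V : Type} (H : SimpleGraph W) (G : SimpleGraph V) : Prop :=
  ¬ Contains H G ∧ ∀ u v, u ≠ v → ¬ G.Adj u v → Contains H (G ⊔ edge u v)

/-- `φ` restricts to a proper edge colouring of `G`. -/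
def Proper {V : Type} (G : SimpleGraph V) (φ : Sym2 V → ℕ) : Prop :=
  ∀ u v w, G.Adj u v → G.Adj u w → v ≠ w → φ s(u, v) ≠ φ s(u, w)

/-- `G` has a copy of `H` all of whose edges have distinct colours under `φ`. -/
def HasRainbow {W V : Type} (H : SimpleGraph W) (G : SimpleGraph V) (φ : Sym2 V → ℕ) : Prop :=
  ∃ f : W → V, Function.Injective f ∧ (∀ a b, H.Adj a b → G.Adj (f a) (f b)) ∧
    ∀ a b c d, H.Adj a b → H.Adj c d → s(a, b) ≠ s(c, d) → φ s(f a, f b) ≠ φ s(f c, f d)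

/-- `G` is rainbow `H`-saturated: some proper edge colouring of `G` has no rainbow copy of `H`,
and for every non-edge `uv` every proper edge colouring of `G + uv` has a rainbow copy of `H`. -/
def RainbowSaturated {W V : Type} (H : SimpleGraph W) (G : SimpleGraph V) : Prop :=
  (∃ φ, Proper G φ ∧ ¬ HasRainbow H G φ) ∧
    ∀ u v, u ≠ v → ¬ G.Adj u v → ∀ φ, Proper (G ⊔ edge u v) φ → HasRainbow H (G ⊔ edge u v) φ

/-- The saturation number `sat(n, H)`. -/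
noncomputable def sat (n : ℕ) {W : Type} (H : SimpleGraph W) : ℕ :=
  sInf {m | ∃ G : SimpleGraph (Fin n), Saturated H G ∧ G.edgeSet.ncard = m}

/-- The rainbow saturation number `sat*(n, H)`. -/
noncomputable def satStar (n : ℕ) {W : Type} (H : SimpleGraph W) : ℕ :=
  sInf {m | ∃ G : SimpleGraph (Fin n), RainbowSaturated H G ∧ G.edgeSet.ncard = m}

/-- The graph `P₄ ∪ K₂`: the path `0 - 1 - 2 - 3` and the edge `4 - 5`. -/
def P4K2 : SimpleGraph (Fin 6) where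
  Adj a b := (a.val, b.val) ∈
    ([(0, 1), (1, 0), (1, 2), (2, 1), (2, 3), (3, 2), (4, 5), (5, 4)] : List (ℕ × ℕ))
  symm := ⟨by decide⟩
  loopless := ⟨by decide⟩

instance : DecidableRel P4K2.Adj := fun a b => inferInstanceAs (Decidable ((a.val, b.val) ∈ _))

theorem adj01 : P4K2.Adj 0 1 := by decide
theorem adj12 : P4K2.Adj 1 2 := by decide
theorem adj23 : P4K2.Adj 2 3 := by decide
theorem adj45 : P4K2.Adj 4 5 := by decide

theorem adj_edge : ∀ a b : Fin 6, P4K2.Adj a b →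
    s(a, b) = s(0, 1) ∨ s(a, b) = s(1, 2) ∨ s(a, b) = s(2, 3) ∨ s(a, b) = s(4, 5) := by
  decide

theorem mk_hom {V : Type} (G : SimpleGraph V) (f : Fin 6 → V) (h01 : G.Adj (f 0) (f 1))
    (h12 : G.Adj (f 1) (f 2)) (h23 : G.Adj (f 2) (f 3)) (h45 : G.Adj (f 4) (f 5)) :
    ∀ a b, P4K2.Adj a b → G.Adj (f a) (f b) := by
  intro a b hab
  have key : ∀ c d, s(a, b) = s(c, d) → G.Adj (f c) (f d) → G.Adj (f a) (f b) := by
    intro c d h hcd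
    rcases Sym2.eq_iff.1 h with ⟨h1, h2⟩ | ⟨h1, h2⟩
    · rw [h1, h2]; exact hcd
    · rw [h1, h2]; exact hcd.symm
  rcases adj_edge a b hab with h | h | h | h
  · exact key _ _ h h01
  · exact key _ _ h h12
  · exact key _ _ h h23
  · exact key _ _ h h45

theorem mk_rainbow {V : Type} (G : SimpleGraph V) (φ : Sym2 V → ℕ) (f : Fin 6 → V)
    (hf : Function.Injective f) (h01 : G.Adj (f 0) (f 1))
    (h12 : G.Adj (f 1) (f 2)) (h23 : G.Adj (f 2) (f 3)) (h45 : G.Adj (f 4) (f 5))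
    (n1 : φ s(f 0, f 1) ≠ φ s(f 1, f 2)) (n2 : φ s(f 0, f 1) ≠ φ s(f 2, f 3))
    (n3 : φ s(f 0, f 1) ≠ φ s(f 4, f 5)) (n4 : φ s(f 1, f 2) ≠ φ s(f 2, f 3))
    (n5 : φ s(f 1, f 2) ≠ φ s(f 4, f 5)) (n6 : φ s(f 2, f 3) ≠ φ s(f 4, f 5)) :
    HasRainbow P4K2 G φ := by
  refine ⟨f, hf, mk_hom G f h01 h12 h23 h45, ?_⟩
  intro a b c d hab hcd hne
  have e : ∀ i j : Fin 6, φ s(f i, f j) = φ (Sym2.map f s(i, j)) := fun i j => rfl
  rw [e a b, e c d]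
  rcases adj_edge a b hab with h | h | h | h <;> rcases adj_edge c d hcd with h' | h' | h' | h' <;>
    first
    | exact absurd (h.trans h'.symm) hne
    | (rw [h, h']
       simp only [Sym2.map_mk]
       first
       | assumption
       | (apply Ne.symm; assumption))

/-! ### A verified search over colour patterns -/

/-- A copy of `P₄ ∪ K₂` in a numbered graph: the four edge indices and the six vertices. -/
structure Cp where
  q1 : ℕ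
  q2 : ℕ
  q3 : ℕ
  q4 : ℕ
  t0 : ℕ
  t1 : ℕ
  t2 : ℕ
  t3 : ℕ
  t4 : ℕ
  t5 : ℕ

/-- Edge number `i` of the list `E`. -/
def ed (E : List (ℕ × ℕ)) (i : ℕ) : ℕ × ℕ := E.getD i (0, 0)

def share (E : List (ℕ × ℕ)) (i j : ℕ) : Bool :=
  ((ed E i).1 == (ed E j).1 && (ed E i).2 != (ed E j).2) ||
  ((ed E i).1 == (ed E j).2 && (ed E i).2 != (ed E j).1) ||
  ((ed E i).2 == (ed E j).1 && (ed E i).1 != (ed E j).2) ||
  ((ed E i).2 == (ed E j).2 && (ed E i).1 != (ed E j).1)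

def dist4 (a b c d : ℕ) : Bool :=
  a != b && a != c && a != d && b != c && b != d && c != d

def okStep (E : List (ℕ × ℕ)) (Q : List (List Cp)) (L : List ℕ) (r : ℕ) : Bool :=
  (r == L.length || L.getD r 0 == r) &&
  (List.range L.length).all (fun j => !(share E L.length j) || L.getD j 0 != r) &&
  (Q.getD L.length []).all (fun c => !(dist4 ((L ++ [r]).getD c.q1 0) ((L ++ [r]).getD c.q2 0)
    ((L ++ [r]).getD c.q3 0) ((L ++ [r]).getD c.q4 0)))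

def search (E : List (ℕ × ℕ)) (Q : List (List Cp)) : ℕ → List ℕ → Bool
  | 0, _ => true
  | rem + 1, L => (List.range (L.length + 1)).any
      (fun r => okStep E Q L r && search E Q rem (L ++ [r]))

/-- The first index with the same colour. -/
noncomputable def rep (x : ℕ → ℕ) (i : ℕ) : ℕ := by
  classical exact Nat.find (⟨i, rfl⟩ : ∃ j, x j = x i)

theorem rep_spec (x : ℕ → ℕ) (i : ℕ) : x (rep x i) = x i := by
  classical exact Nat.find_spec (⟨i, rfl⟩ : ∃ j, x j = x i)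

theorem rep_le (x : ℕ → ℕ) (i : ℕ) : rep x i ≤ i := by
  classical exact Nat.find_min' (⟨i, rfl⟩ : ∃ j, x j = x i) rfl

theorem rep_eq (x : ℕ → ℕ) (i j : ℕ) (h : x i = x j) : rep x i = rep x j := by
  classical
  apply le_antisymm
  · exact Nat.find_min' (⟨i, rfl⟩ : ∃ j, x j = x i) ((rep_spec x j).trans h.symm)
  · exact Nat.find_min' (⟨j, rfl⟩ : ∃ k, x k = x j) ((rep_spec x i).trans h)

theorem eq_of_rep (x : ℕ → ℕ) (i j : ℕ) (h : rep x i = rep x j) : x i = x j :=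
  (rep_spec x i).symm.trans ((congrArg x h).trans (rep_spec x j))

theorem rep_rep (x : ℕ → ℕ) (i : ℕ) : rep x (rep x i) = rep x i :=
  rep_eq x _ _ (rep_spec x i)

theorem getD_map_range (g : ℕ → ℕ) (k i : ℕ) (hi : i < k) :
    ((List.range k).map g).getD i 0 = g i := by
  simp [List.getD, hi]

theorem search_sound (E : List (ℕ × ℕ)) (Q : List (List Cp)) (x : ℕ → ℕ) (m : ℕ)
    (hprop : ∀ i j, j < i → i < m → share E i j = true → x i ≠ x j)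
    (hQ : ∀ k, k < m → ∀ c ∈ Q.getD k [], c.q1 ≤ k ∧ c.q2 ≤ k ∧ c.q3 ≤ k ∧ c.q4 ≤ k ∧
      dist4 (x c.q1) (x c.q2) (x c.q3) (x c.q4) = false) :
    ∀ rem k, k + rem = m → search E Q rem ((List.range k).map (rep x)) = true := by
  intro rem
  induction rem with
  | zero => intro k _; rfl
  | succ rem ih =>
    intro k hk
    rw [search, List.any_eq_true]
    have hlen : ((List.range k).map (rep x)).length = k := by simp
    have happ : (List.range k).map (rep x) ++ [rep x k] = (List.range (k + 1)).map (rep x) := by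
      rw [List.range_succ, List.map_append, List.map_singleton]
    refine ⟨rep x k, ?_, ?_⟩
    · rw [List.mem_range, hlen]
      have := rep_le x k
      omega
    · rw [Bool.and_eq_true]
      constructor
      · unfold okStep
        rw [Bool.and_eq_true, Bool.and_eq_true]
        refine ⟨⟨?_, ?_⟩, ?_⟩
        · rw [Bool.or_eq_true]
          rcases Nat.lt_or_ge (rep x k) k with h | h
          · right
            rw [getD_map_range _ _ _ h, rep_rep]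
            simp
          · left
            have := rep_le x k
            rw [hlen]
            simp; omega
        · rw [List.all_eq_true]
          intro j hj
          rw [List.mem_range, hlen] at hj
          rw [hlen]
          cases hs : share E k j with
          | false => simp
          | true =>
            have h1 := hprop k j hj (by omega) hs
            rw [getD_map_range _ _ _ hj]
            have h2 : rep x j ≠ rep x k := fun h => h1 (eq_of_rep x _ _ h).symm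
            simp [h2]
        · rw [List.all_eq_true]
          intro c hc
          rw [hlen] at hc
          obtain ⟨h1, h2, h3, h4, h5⟩ := hQ k (by omega) c hc
          rw [happ, getD_map_range _ _ _ (by omega), getD_map_range _ _ _ (by omega),
            getD_map_range _ _ _ (by omega), getD_map_range _ _ _ (by omega)]
          by_contra hcon
          simp only [Bool.not_eq_true, Bool.not_eq_false'] at hcon
          have : dist4 (x c.q1) (x c.q2) (x c.q3) (x c.q4) = true := by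
            simp only [dist4, Bool.and_eq_true, bne_iff_ne, ne_eq] at hcon ⊢
            obtain ⟨⟨⟨⟨⟨a1, a2⟩, a3⟩, a4⟩, a5⟩, a6⟩ := hcon
            exact ⟨⟨⟨⟨⟨fun h => a1 (rep_eq x _ _ h), fun h => a2 (rep_eq x _ _ h)⟩,
              fun h => a3 (rep_eq x _ _ h)⟩, fun h => a4 (rep_eq x _ _ h)⟩,
              fun h => a5 (rep_eq x _ _ h)⟩, fun h => a6 (rep_eq x _ _ h)⟩
          rw [this] at h5
          exact absurd h5 (by simp)
      · rw [happ]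
        exact ih (k + 1) (by omega)

/-! ### The graph with nine edges -/

/-- The nine edges: a triangle `0 1 2` and two squares `0 1 5 3`, `0 2 6 4`. -/
def E0 : List (ℕ × ℕ) :=
  [(0, 1), (0, 2), (1, 2), (0, 3), (0, 4), (1, 5), (3, 5), (2, 6), (4, 6)]

def cpsData : ℕ × ℕ → List (List Cp)
  | (0, 5) => [[], [], [], [], [], [], [], [⟨0, 2, 7, 6, 0, 1, 2, 6, 3, 5⟩, ⟨4, 0, 5, 7, 4, 0, 1, 5, 2, 6⟩], [⟨2, 5, 6, 8, 2, 1, 5, 3, 4, 6⟩, ⟨2, 1, 3, 8, 1, 2, 0, 3, 4, 6⟩, ⟨1, 0, 5, 8, 2, 0, 1, 5, 4, 6⟩, ⟨4, 8, 7, 5, 0, 4, 6, 2, 1, 5⟩], [⟨6, 9, 4, 2, 3, 5, 0, 4, 1, 2⟩, ⟨1, 9, 6, 8, 2, 0, 5, 3, 4, 6⟩, ⟨0, 9, 6, 8, 1, 0, 5, 3, 4, 6⟩, ⟨5, 9, 3, 7, 1, 5, 0, 3, 2, 6⟩]]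
  | (0, 6) => [[], [], [], [], [], [], [⟨2, 5, 6, 4, 2, 1, 5, 3, 0, 4⟩], [⟨4, 1, 7, 5, 4, 0, 2, 6, 1, 5⟩, ⟨0, 5, 6, 7, 0, 1, 5, 3, 2, 6⟩], [⟨2, 0, 3, 8, 2, 1, 0, 3, 4, 6⟩, ⟨3, 6, 5, 8, 0, 3, 5, 1, 4, 6⟩, ⟨4, 8, 7, 5, 0, 4, 6, 2, 1, 5⟩], [⟨0, 9, 8, 6, 1, 0, 6, 4, 3, 5⟩, ⟨2, 0, 9, 6, 2, 1, 0, 6, 3, 5⟩, ⟨1, 9, 8, 5, 2, 0, 6, 4, 1, 5⟩]]
  | (1, 3) => [[], [], [], [], [], [], [⟨4, 3, 6, 2, 4, 0, 3, 5, 1, 2⟩], [⟨4, 0, 5, 7, 4, 0, 1, 5, 2, 6⟩, ⟨3, 6, 5, 7, 0, 3, 5, 1, 2, 6⟩, ⟨4, 1, 7, 5, 4, 0, 2, 6, 1, 5⟩], [⟨1, 4, 8, 5, 2, 0, 4, 6, 1, 5⟩, ⟨1, 3, 6, 8, 2, 0, 3, 5, 4, 6⟩, ⟨4, 8, 7, 6, 0, 4, 6, 2, 3, 5⟩, ⟨0, 5, 6, 8, 0, 1, 5, 3, 4, 6⟩], [⟨2, 9, 6, 4, 2, 1, 3, 5, 0, 4⟩, ⟨0, 9, 6, 7, 0, 1, 3, 5, 2, 6⟩, ⟨2, 9, 6, 8, 2, 1, 3, 5, 4, 6⟩, ⟨1, 0, 9, 8, 2, 0, 1, 3, 4, 6⟩]]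
  | (1, 4) => [[], [], [], [], [], [], [⟨2, 5, 6, 4, 2, 1, 5, 3, 0, 4⟩], [⟨0, 2, 7, 6, 0, 1, 2, 6, 3, 5⟩, ⟨4, 1, 7, 5, 4, 0, 2, 6, 1, 5⟩, ⟨5, 2, 7, 3, 5, 1, 2, 6, 0, 3⟩, ⟨4, 1, 7, 6, 4, 0, 2, 6, 3, 5⟩], [⟨0, 3, 6, 8, 1, 0, 3, 5, 4, 6⟩, ⟨1, 3, 6, 8, 2, 0, 3, 5, 4, 6⟩, ⟨1, 0, 5, 8, 2, 0, 1, 5, 4, 6⟩], [⟨9, 2, 7, 6, 4, 1, 2, 6, 3, 5⟩, ⟨0, 9, 8, 6, 0, 1, 4, 6, 3, 5⟩, ⟨1, 2, 9, 6, 0, 2, 1, 4, 3, 5⟩]]
  | (1, 6) => [[], [], [], [], [], [], [⟨2, 0, 4, 6, 2, 1, 0, 4, 3, 5⟩, ⟨2, 1, 4, 6, 1, 2, 0, 4, 3, 5⟩], [⟨4, 1, 7, 5, 4, 0, 2, 6, 1, 5⟩, ⟨0, 3, 6, 7, 1, 0, 3, 5, 2, 6⟩], [⟨0, 3, 6, 8, 1, 0, 3, 5, 4, 6⟩, ⟨1, 4, 8, 5, 2, 0, 4, 6, 1, 5⟩, ⟨4, 8, 7, 5, 0, 4, 6, 2, 1, 5⟩, ⟨3, 4, 8, 5, 3, 0, 4, 6, 1, 5⟩, ⟨1, 7, 8, 5, 0, 2, 6, 4, 1, 5⟩], [⟨0, 9, 8, 6, 0, 1, 6, 4, 3, 5⟩, ⟨6, 5, 9, 4, 3, 5, 1, 6, 0, 4⟩]]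
  | (2, 3) => [[], [], [], [], [], [], [], [⟨4, 0, 5, 7, 4, 0, 1, 5, 2, 6⟩, ⟨0, 3, 6, 7, 1, 0, 3, 5, 2, 6⟩, ⟨4, 3, 6, 7, 4, 0, 3, 5, 2, 6⟩, ⟨4, 1, 7, 6, 4, 0, 2, 6, 3, 5⟩], [⟨1, 3, 6, 8, 2, 0, 3, 5, 4, 6⟩, ⟨1, 2, 5, 8, 0, 2, 1, 5, 4, 6⟩, ⟨1, 7, 8, 5, 0, 2, 6, 4, 1, 5⟩], [⟨5, 6, 9, 8, 1, 5, 3, 2, 4, 6⟩, ⟨4, 0, 5, 9, 4, 0, 1, 5, 2, 3⟩, ⟨3, 9, 2, 8, 0, 3, 2, 1, 4, 6⟩, ⟨2, 9, 6, 8, 1, 2, 3, 5, 4, 6⟩]]
  | (2, 4) => [[], [], [], [], [], [], [], [⟨4, 1, 7, 5, 4, 0, 2, 6, 1, 5⟩, ⟨4, 3, 6, 7, 4, 0, 3, 5, 2, 6⟩, ⟨3, 0, 5, 7, 3, 0, 1, 5, 2, 6⟩], [⟨0, 4, 8, 6, 1, 0, 4, 6, 3, 5⟩, ⟨2, 7, 8, 6, 1, 2, 6, 4, 3, 5⟩, ⟨1, 0, 5, 8, 2, 0, 1, 5, 4, 6⟩, ⟨4, 8, 7, 5, 0, 4, 6, 2, 1, 5⟩, ⟨1, 7, 8, 5, 0, 2, 6, 4, 1, 5⟩], [⟨4, 9, 2, 6, 0, 4, 2, 1, 3, 5⟩, ⟨2, 9, 8, 3, 1, 2, 4, 6, 0, 3⟩, ⟨2, 9, 8, 6, 1, 2, 4, 6, 3, 5⟩, ⟨0, 5, 6, 9, 0, 1, 5, 3, 2, 4⟩]]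
  | (2, 5) => [[], [], [], [], [], [], [], [⟨0, 1, 7, 6, 1, 0, 2, 6, 3, 5⟩, ⟨4, 1, 7, 6, 4, 0, 2, 6, 3, 5⟩], [⟨2, 5, 6, 8, 2, 1, 5, 3, 4, 6⟩, ⟨4, 8, 7, 5, 0, 4, 6, 2, 1, 5⟩, ⟨1, 7, 8, 5, 0, 2, 6, 4, 1, 5⟩, ⟨0, 5, 6, 8, 0, 1, 5, 3, 4, 6⟩, ⟨3, 4, 8, 2, 3, 0, 4, 6, 1, 2⟩], [⟨8, 7, 9, 0, 4, 6, 2, 5, 0, 1⟩, ⟨5, 9, 7, 4, 1, 5, 2, 6, 0, 4⟩, ⟨3, 4, 8, 9, 3, 0, 4, 6, 2, 5⟩, ⟨2, 9, 6, 8, 1, 2, 5, 3, 4, 6⟩]]
  | (3, 4) => [[], [], [], [], [], [], [], [⟨5, 2, 7, 4, 5, 1, 2, 6, 0, 4⟩, ⟨4, 1, 7, 5, 4, 0, 2, 6, 1, 5⟩, ⟨0, 1, 7, 6, 1, 0, 2, 6, 3, 5⟩, ⟨4, 3, 6, 7, 4, 0, 3, 5, 2, 6⟩], [⟨2, 0, 3, 8, 2, 1, 0, 3, 4, 6⟩, ⟨4, 8, 7, 5, 0, 4, 6, 2, 1, 5⟩], [⟨1, 3, 9, 5, 2, 0, 3, 4, 1, 5⟩, ⟨5, 2, 7, 9, 5, 1, 2, 6, 3, 4⟩, ⟨1, 0, 5, 9, 2, 0, 1, 5, 3, 4⟩, ⟨4, 9, 6, 7, 0, 4, 3, 5, 2, 6⟩, ⟨7, 8, 9, 5, 2, 6, 4, 3, 1, 5⟩, ⟨0, 2, 7, 9, 0, 1, 2, 6, 3, 4⟩]]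
  | (3, 6) => [[], [], [], [], [], [], [⟨2, 0, 4, 6, 2, 1, 0, 4, 3, 5⟩, ⟨2, 5, 6, 4, 2, 1, 5, 3, 0, 4⟩], [⟨5, 2, 7, 3, 5, 1, 2, 6, 0, 3⟩, ⟨3, 1, 7, 5, 3, 0, 2, 6, 1, 5⟩], [⟨1, 7, 8, 6, 0, 2, 6, 4, 3, 5⟩, ⟨1, 3, 6, 8, 2, 0, 3, 5, 4, 6⟩, ⟨1, 7, 8, 5, 0, 2, 6, 4, 1, 5⟩, ⟨4, 8, 7, 6, 0, 4, 6, 2, 3, 5⟩], [⟨3, 9, 8, 5, 0, 3, 6, 4, 1, 5⟩, ⟨1, 0, 5, 9, 2, 0, 1, 5, 3, 6⟩, ⟨8, 9, 6, 0, 4, 6, 3, 5, 0, 1⟩, ⟨1, 2, 5, 9, 0, 2, 1, 5, 3, 6⟩, ⟨4, 3, 9, 5, 4, 0, 3, 6, 1, 5⟩, ⟨4, 0, 5, 9, 4, 0, 1, 5, 3, 6⟩, ⟨7, 9, 6, 4, 2, 6, 3, 5, 0, 4⟩]]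
  | (4, 5) => [[], [], [], [], [], [], [⟨2, 0, 4, 6, 2, 1, 0, 4, 3, 5⟩], [⟨3, 6, 5, 7, 0, 3, 5, 1, 2, 6⟩, ⟨4, 1, 7, 5, 4, 0, 2, 6, 1, 5⟩, ⟨4, 1, 7, 6, 4, 0, 2, 6, 3, 5⟩, ⟨0, 1, 7, 6, 1, 0, 2, 6, 3, 5⟩], [⟨2, 5, 6, 8, 2, 1, 5, 3, 4, 6⟩, ⟨1, 0, 5, 8, 2, 0, 1, 5, 4, 6⟩], [⟨6, 9, 8, 1, 3, 5, 4, 6, 0, 2⟩, ⟨0, 5, 9, 7, 0, 1, 5, 4, 2, 6⟩, ⟨4, 9, 5, 7, 0, 4, 5, 1, 2, 6⟩, ⟨0, 2, 7, 9, 0, 1, 2, 6, 4, 5⟩, ⟨2, 1, 3, 9, 1, 2, 0, 3, 4, 5⟩, ⟨7, 8, 9, 3, 2, 6, 4, 5, 0, 3⟩, ⟨5, 9, 8, 1, 1, 5, 4, 6, 0, 2⟩]]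
  | (5, 6) => [[], [], [], [], [], [], [⟨2, 5, 6, 4, 2, 1, 5, 3, 0, 4⟩], [⟨0, 2, 7, 6, 0, 1, 2, 6, 3, 5⟩, ⟨0, 3, 6, 7, 1, 0, 3, 5, 2, 6⟩, ⟨4, 1, 7, 6, 4, 0, 2, 6, 3, 5⟩, ⟨4, 3, 6, 7, 4, 0, 3, 5, 2, 6⟩], [⟨1, 4, 8, 6, 2, 0, 4, 6, 3, 5⟩, ⟨2, 1, 3, 8, 1, 2, 0, 3, 4, 6⟩, ⟨2, 7, 8, 3, 1, 2, 6, 4, 0, 3⟩, ⟨3, 6, 5, 8, 0, 3, 5, 1, 4, 6⟩], [⟨5, 9, 8, 3, 1, 5, 6, 4, 0, 3⟩, ⟨6, 9, 8, 0, 3, 5, 6, 4, 0, 1⟩, ⟨5, 9, 7, 3, 1, 5, 6, 2, 0, 3⟩, ⟨2, 1, 3, 9, 1, 2, 0, 3, 5, 6⟩, ⟨5, 9, 8, 1, 1, 5, 6, 4, 0, 2⟩]]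
  | (0, 7) => [[], [], [], [], [], [], [], [⟨5, 2, 7, 3, 5, 1, 2, 6, 0, 3⟩], [⟨2, 5, 6, 8, 2, 1, 5, 3, 4, 6⟩, ⟨1, 4, 8, 6, 2, 0, 4, 6, 3, 5⟩, ⟨1, 0, 5, 8, 2, 0, 1, 5, 4, 6⟩, ⟨4, 8, 7, 5, 0, 4, 6, 2, 1, 5⟩, ⟨3, 4, 8, 5, 3, 0, 4, 6, 1, 5⟩, ⟨0, 4, 8, 6, 1, 0, 4, 6, 3, 5⟩], [⟨2, 0, 9, 8, 2, 1, 0, 7, 4, 6⟩, ⟨5, 0, 9, 7, 5, 1, 0, 7, 2, 6⟩, ⟨7, 1, 9, 6, 6, 2, 0, 7, 3, 5⟩, ⟨2, 1, 9, 6, 1, 2, 0, 7, 3, 5⟩, ⟨5, 0, 9, 8, 5, 1, 0, 7, 4, 6⟩]]
  | (1, 7) => [[], [], [], [], [], [], [], [⟨3, 1, 7, 5, 3, 0, 2, 6, 1, 5⟩], [⟨0, 3, 6, 8, 1, 0, 3, 5, 4, 6⟩, ⟨1, 7, 8, 6, 0, 2, 6, 4, 3, 5⟩, ⟨2, 0, 3, 8, 2, 1, 0, 3, 4, 6⟩, ⟨3, 4, 8, 5, 3, 0, 4, 6, 1, 5⟩, ⟨1, 7, 8, 5, 0, 2, 6, 4, 1, 5⟩], [⟨4, 8, 7, 9, 0, 4, 6, 2, 1, 7⟩, ⟨3, 0, 9, 7, 3, 0, 1, 7, 2, 6⟩, ⟨1, 7, 8, 9, 0, 2, 6, 4, 1, 7⟩, ⟨4, 0, 9, 6, 4, 0, 1, 7, 3, 5⟩, ⟨1, 2, 9, 6, 0, 2, 1, 7, 3, 5⟩, ⟨1, 0, 9, 8, 2, 0, 1, 7, 4, 6⟩]]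
  | (2, 7) => [[], [], [], [], [], [], [], [⟨3, 0, 5, 7, 3, 0, 1, 5, 2, 6⟩], [⟨2, 5, 6, 8, 2, 1, 5, 3, 4, 6⟩, ⟨1, 7, 8, 6, 0, 2, 6, 4, 3, 5⟩, ⟨1, 2, 5, 8, 0, 2, 1, 5, 4, 6⟩, ⟨2, 0, 3, 8, 2, 1, 0, 3, 4, 6⟩, ⟨3, 4, 8, 5, 3, 0, 4, 6, 1, 5⟩], [⟨0, 2, 9, 6, 0, 1, 2, 7, 3, 5⟩, ⟨4, 1, 9, 5, 4, 0, 2, 7, 1, 5⟩, ⟨4, 3, 6, 9, 4, 0, 3, 5, 2, 7⟩, ⟨4, 1, 9, 6, 4, 0, 2, 7, 3, 5⟩, ⟨3, 0, 5, 9, 3, 0, 1, 5, 2, 7⟩, ⟨0, 1, 9, 8, 1, 0, 2, 7, 4, 6⟩]]
  | (3, 7) => [[], [], [], [], [], [], [⟨2, 0, 4, 6, 2, 1, 0, 4, 3, 5⟩, ⟨2, 1, 4, 6, 1, 2, 0, 4, 3, 5⟩], [⟨0, 2, 7, 6, 0, 1, 2, 6, 3, 5⟩, ⟨4, 1, 7, 5, 4, 0, 2, 6, 1, 5⟩, ⟨5, 2, 7, 3, 5, 1, 2, 6, 0, 3⟩], [⟨0, 3, 6, 8, 1, 0, 3, 5, 4, 6⟩, ⟨1, 7, 8, 6, 0, 2, 6, 4, 3, 5⟩, ⟨3, 4, 8, 5, 3, 0, 4, 6, 1, 5⟩, ⟨3, 4, 8, 2, 3, 0, 4, 6, 1, 2⟩], [⟨1, 3, 9, 8, 2, 0, 3, 7, 4, 6⟩, ⟨5, 6, 9, 8, 1, 5, 3, 7, 4, 6⟩, ⟨1, 7, 8, 9, 0, 2, 6, 4, 3, 7⟩, ⟨5, 6, 9, 7,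 1, 5, 3, 7, 2, 6⟩, ⟨0, 2, 7, 9, 0, 1, 2, 6, 3, 7⟩]]
  | (4, 7) => [[], [], [], [], [], [], [⟨2, 1, 4, 6, 1, 2, 0, 4, 3, 5⟩], [⟨0, 3, 6, 7, 1, 0, 3, 5, 2, 6⟩, ⟨5, 2, 7, 3, 5, 1, 2, 6, 0, 3⟩], [⟨0, 3, 6, 8, 1, 0, 3, 5, 4, 6⟩, ⟨1, 7, 8, 6, 0, 2, 6, 4, 3, 5⟩, ⟨4, 8, 7, 6, 0, 4, 6, 2, 3, 5⟩, ⟨3, 4, 8, 5, 3, 0, 4, 6, 1, 5⟩, ⟨1, 7, 8, 5, 0, 2, 6, 4, 1, 5⟩], [⟨7, 8, 9, 0, 2, 6, 4, 7, 0, 1⟩, ⟨1, 3, 6, 9, 2, 0, 3, 5, 4, 7⟩, ⟨1, 2, 5, 9, 0, 2, 1, 5, 4, 7⟩, ⟨1, 4, 9, 6, 2, 0, 4, 7, 3, 5⟩, ⟨0, 4, 9, 6, 1, 0, 4, 7, 3, 5⟩, ⟨2, 0, 3, 9, 2, 1, 0, 3, 4, 7⟩]]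
  | (5, 7) => [[], [], [], [], [], [], [⟨4, 3, 6, 2, 4, 0, 3, 5, 1, 2⟩], [], [⟨3, 0, 5, 8, 3, 0, 1, 5, 4, 6⟩, ⟨1, 7, 8, 6, 0, 2, 6, 4, 3, 5⟩, ⟨1, 2, 5, 8, 0, 2, 1, 5, 4, 6⟩, ⟨4, 8, 7, 6, 0, 4, 6, 2, 3, 5⟩, ⟨1, 0, 5, 8, 2, 0, 1, 5, 4, 6⟩, ⟨2, 0, 3, 8, 2, 1, 0, 3, 4, 6⟩], [⟨3, 6, 9, 8, 0, 3, 5, 7, 4, 6⟩, ⟨0, 5, 9, 7, 0, 1, 5, 7, 2, 6⟩, ⟨2, 7, 8, 9, 1, 2, 6, 4, 5, 7⟩, ⟨2, 5, 9, 8, 2, 1, 5, 7, 4, 6⟩, ⟨3, 1, 7, 9, 3, 0, 2, 6, 5, 7⟩, ⟨4, 1, 7, 9, 4, 0, 2, 6, 5, 7⟩]]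
  | (6, 7) => [[], [], [], [], [], [], [], [⟨3, 1, 7, 5, 3, 0, 2, 6, 1, 5⟩], [⟨3, 0, 5, 8, 3, 0, 1, 5, 4, 6⟩, ⟨4, 8, 7, 5, 0, 4, 6, 2, 1, 5⟩, ⟨0, 3, 6, 8, 1, 0, 3, 5, 4, 6⟩, ⟨1, 4, 8, 5, 2, 0, 4, 6, 1, 5⟩, ⟨1, 7, 8, 6, 0, 2, 6, 4, 3, 5⟩, ⟨2, 7, 8, 6, 1, 2, 6, 4, 3, 5⟩, ⟨1, 2, 5, 8, 0, 2, 1, 5, 4, 6⟩, ⟨2, 0, 3, 8, 2, 1, 0, 3, 4, 6⟩], [⟨4, 8, 9, 6, 0, 4, 6, 7, 3, 5⟩, ⟨2, 0, 4, 9, 2, 1, 0, 4, 6, 7⟩, ⟨4, 8, 9, 5, 0, 4, 6, 7, 1, 5⟩, ⟨2, 5, 6, 9, 2, 1, 5, 3, 6, 7⟩, ⟨1, 7, 9, 5, 0, 2, 6, 7, 1, 5⟩]]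
  | (7, 8) => [[], [], [], [], [], [], [⟨2, 5, 6, 4, 2, 1, 5, 3, 0, 4⟩], [⟨0, 2, 7, 6, 0, 1, 2, 6, 3, 5⟩, ⟨5, 2, 7, 3, 5, 1, 2, 6, 0, 3⟩, ⟨4, 1, 7, 5, 4, 0, 2, 6, 1, 5⟩, ⟨0, 1, 7, 6, 1, 0, 2, 6, 3, 5⟩], [⟨1, 7, 8, 6, 0, 2, 6, 4, 3, 5⟩, ⟨2, 7, 8, 6, 1, 2, 6, 4, 3, 5⟩], [⟨1, 3, 6, 9, 2, 0, 3, 5, 7, 8⟩, ⟨1, 0, 5, 9, 2, 0, 1, 5, 7, 8⟩, ⟨0, 2, 7, 9, 0, 1, 2, 6, 7, 8⟩, ⟨1, 4, 8, 9, 2, 0, 4, 6, 7, 8⟩, ⟨0, 5, 6, 9, 0, 1, 5, 3, 7, 8⟩, ⟨3, 4, 8, 9, 3, 0, 4, 6, 7, 8⟩, ⟨3, 1, 7, 9, 3, 0, 2, 6, 7, 8⟩, ⟨2, 1, 3, 9, 1, 2, 0, 3, 7, 8⟩, ⟨3, 0, 5, 9, 3, 0, 1, 5, 7, 8⟩]]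
  | _ => []

def caseList : List (ℕ × ℕ) :=
  [(0, 5), (0, 6), (1, 3), (1, 4), (1, 6), (2, 3), (2, 4), (2, 5), (3, 4), (3, 6), (4, 5), (5, 6), (0, 7), (1, 7), (2, 7), (3, 7), (4, 7), (5, 7), (6, 7), (7, 8)]

def em (E : List (ℕ × ℕ)) (i a b : ℕ) : Bool :=
  decide (i < E.length) && (ed E i == (a, b) || ed E i == (b, a))

def validCp (E : List (ℕ × ℕ)) (k : ℕ) (c : Cp) : Bool :=
  em E c.q1 c.t0 c.t1 && em E c.q2 c.t1 c.t2 && em E c.q3 c.t2 c.t3 && em E c.q4 c.t4 c.t5 &&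
  decide (c.q1 ≤ k) && decide (c.q2 ≤ k) && decide (c.q3 ≤ k) && decide (c.q4 ≤ k) &&
  decide (c.t0 < 9 ∧ c.t1 < 9 ∧ c.t2 < 9 ∧ c.t3 < 9 ∧ c.t4 < 9 ∧ c.t5 < 9) &&
  decide ([c.t0, c.t1, c.t2, c.t3, c.t4, c.t5].Nodup)

def caseOk (pq : ℕ × ℕ) : Bool :=
  let E := E0 ++ [pq]
  let Q := cpsData pq
  decide (pq.1 < 9 ∧ pq.2 < 9) &&
  (List.range 10).all (fun k => (Q.getD k []).all (validCp E k)) &&
  !(search E Q 10 [])

theorem all_cases : caseList.all caseOk = true := by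
  decide +kernel

theorem em_spec {V : Type} (G : SimpleGraph V) (E : List (ℕ × ℕ)) (vert : ℕ → V)
    (hE : ∀ i, i < E.length → G.Adj (vert (ed E i).1) (vert (ed E i).2))
    (i a b : ℕ) (h : em E i a b = true) :
    G.Adj (vert a) (vert b) ∧ s(vert a, vert b) = s(vert (ed E i).1, vert (ed E i).2) := by
  unfold em at h
  rw [Bool.and_eq_true, decide_eq_true_eq, Bool.or_eq_true, beq_iff_eq, beq_iff_eq] at h
  obtain ⟨hi, h | h⟩ := h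
  · have := hE i hi
    rw [h] at this ⊢
    exact ⟨this, rfl⟩
  · have := hE i hi
    rw [h] at this ⊢
    exact ⟨this.symm, Sym2.eq_swap⟩

/-- The forcing statement for one of the twenty added edges. -/
theorem forced {V : Type} (G : SimpleGraph V) (φ : Sym2 V → ℕ) (hφ : Proper G φ)
    (pq : ℕ × ℕ) (hpq : caseOk pq = true) (vert : ℕ → V)
    (hv : ∀ i j, i < 9 → j < 9 → vert i = vert j → i = j)
    (hE : ∀ i, i < (E0 ++ [pq]).length →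
      G.Adj (vert (ed (E0 ++ [pq]) i).1) (vert (ed (E0 ++ [pq]) i).2)) :
    HasRainbow P4K2 G φ := by
  by_contra hcon
  unfold caseOk at hpq
  simp only [Bool.and_eq_true, decide_eq_true_eq, Bool.not_eq_true', List.all_eq_true,
    List.mem_range] at hpq
  obtain ⟨⟨⟨hp, hq⟩, hval⟩, hsearch⟩ := hpq
  set E := E0 ++ [pq] with hEdef
  set x : ℕ → ℕ := fun i => φ s(vert (ed E i).1, vert (ed E i).2) with hx
  have hlen : E.length = 10 := by rw [hEdef]; rfl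
  have hlt : ∀ i, i < 10 → (ed E i).1 < 9 ∧ (ed E i).2 < 9 := by
    intro i hi
    rw [hEdef]
    obtain ⟨p, q⟩ := pq
    interval_cases i <;> simp [ed, E0] <;> exact ⟨hp, hq⟩
  have := search_sound E (cpsData pq) x 10 ?_ ?_ 10 0 (by norm_num)
  · rw [List.range_zero, List.map_nil, hsearch] at this
    exact absurd this (by simp)
  · intro i j hji hi hs
    have hi' := hE i (by omega)
    have hj' := hE j (by omega)
    obtain ⟨a1, a2⟩ := hlt i hi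
    obtain ⟨b1, b2⟩ := hlt j (by omega)
    unfold share at hs
    simp only [Bool.or_eq_true, Bool.and_eq_true, beq_iff_eq, bne_iff_ne, ne_eq] at hs
    show φ s(vert (ed E i).1, vert (ed E i).2) ≠ φ s(vert (ed E j).1, vert (ed E j).2)
    rcases hs with ((⟨h1, h2⟩ | ⟨h1, h2⟩) | ⟨h1, h2⟩) | ⟨h1, h2⟩
    · rw [h1] at hi' ⊢
      exact hφ _ _ _ hi' hj' (fun h => h2 (hv _ _ a2 b2 h))
    · rw [h1] at hi' ⊢
      rw [Sym2.eq_swap (a := vert (ed E j).1)]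
      exact hφ _ _ _ hi' hj'.symm (fun h => h2 (hv _ _ a2 b1 h))
    · rw [h1] at hi' ⊢
      rw [Sym2.eq_swap (a := vert (ed E i).1)]
      exact hφ _ _ _ hi'.symm hj' (fun h => h2 (hv _ _ a1 b2 h))
    · rw [h1] at hi' ⊢
      rw [Sym2.eq_swap (a := vert (ed E i).1), Sym2.eq_swap (a := vert (ed E j).1)]
      exact hφ _ _ _ hi'.symm hj'.symm (fun h => h2 (hv _ _ a1 b1 h))
  · intro k hk c hc
    have hvc := hval k hk c hc
    unfold validCp at hvc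
    simp only [Bool.and_eq_true, decide_eq_true_eq] at hvc
    obtain ⟨⟨⟨⟨⟨⟨⟨⟨⟨e1, e2⟩, e3⟩, e4⟩, l1⟩, l2⟩, l3⟩, l4⟩, ht⟩, hnd⟩ := hvc
    refine ⟨l1, l2, l3, l4, ?_⟩
    by_contra hd
    rw [Bool.not_eq_false] at hd
    apply hcon
    obtain ⟨g1, s1⟩ := em_spec G E vert hE _ _ _ e1
    obtain ⟨g2, s2⟩ := em_spec G E vert hE _ _ _ e2
    obtain ⟨g3, s3⟩ := em_spec G E vert hE _ _ _ e3
    obtain ⟨g4, s4⟩ := em_spec G E vert hE _ _ _ e4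
    simp only [dist4, Bool.and_eq_true, bne_iff_ne, ne_eq] at hd
    obtain ⟨⟨⟨⟨⟨n1, n2⟩, n3⟩, n4⟩, n5⟩, n6⟩ := hd
    obtain ⟨t0, t1, t2, t3, t4, t5⟩ := ht
    simp only [List.nodup_cons, List.mem_cons, not_or, List.not_mem_nil, not_false_eq_true,
      List.nodup_nil, and_true] at hnd
    refine mk_rainbow G φ ![vert c.t0, vert c.t1, vert c.t2, vert c.t3, vert c.t4, vert c.t5]
      ?_ g1 g2 g3 g4 ?_ ?_ ?_ ?_ ?_ ?_
    · intro i j hij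
      obtain ⟨⟨m1, m2, m3, m4, m5⟩, ⟨m6, m7, m8, m9⟩, ⟨m10, m11, m12⟩, ⟨m13, m14⟩, m15⟩ := hnd
      fin_cases i <;> fin_cases j <;> first
        | rfl
        | (exfalso
           have h := hv _ _ (by assumption) (by assumption) hij
           first
           | exact m1 h | exact m2 h | exact m3 h | exact m4 h | exact m5 h | exact m6 h
           | exact m7 h | exact m8 h | exact m9 h | exact m10 h | exact m11 h | exact m12 h
           | exact m13 h | exact m14 h | exact m15 h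
           | exact m1 h.symm | exact m2 h.symm | exact m3 h.symm | exact m4 h.symm
           | exact m5 h.symm | exact m6 h.symm | exact m7 h.symm | exact m8 h.symm
           | exact m9 h.symm | exact m10 h.symm | exact m11 h.symm | exact m12 h.symm
           | exact m13 h.symm | exact m14 h.symm | exact m15 h.symm)
    · show φ s(vert c.t0, vert c.t1) ≠ φ s(vert c.t1, vert c.t2)
      rw [s1, s2]; exact n1
    · show φ s(vert c.t0, vert c.t1) ≠ φ s(vert c.t2, vert c.t3)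
      rw [s1, s3]; exact n2
    · show φ s(vert c.t0, vert c.t1) ≠ φ s(vert c.t4, vert c.t5)
      rw [s1, s4]; exact n3
    · show φ s(vert c.t1, vert c.t2) ≠ φ s(vert c.t2, vert c.t3)
      rw [s2, s3]; exact n4
    · show φ s(vert c.t1, vert c.t2) ≠ φ s(vert c.t4, vert c.t5)
      rw [s2, s4]; exact n5
    · show φ s(vert c.t2, vert c.t3) ≠ φ s(vert c.t4, vert c.t5)
      rw [s3, s4]; exact n6

/-! ### The upper bound `sat* ≤ 9` -/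

/-- The graph with the nine edges `E0` and `n - 7` isolated vertices. -/
def Gs (n : ℕ) : SimpleGraph (Fin n) where
  Adj u v := (u.val, v.val) ∈ E0 ∨ (v.val, u.val) ∈ E0
  symm := ⟨fun u v h => h.symm⟩
  loopless := ⟨by
    intro u h
    have : ∀ p ∈ E0, p.1 ≠ p.2 := by decide
    rcases h with h | h <;> exact this _ h rfl⟩

/-- The arcs. -/
def A0 : List (ℕ × ℕ) := E0 ++ E0.map Prod.swap

theorem gs_adj {n : ℕ} (u v : Fin n) : (Gs n).Adj u v ↔ (u.val, v.val) ∈ A0 := by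
  unfold A0
  rw [List.mem_append, List.mem_map]
  constructor
  · rintro (h | h)
    · exact Or.inl h
    · exact Or.inr ⟨_, h, rfl⟩
  · rintro (h | ⟨p, hp, he⟩)
    · exact Or.inl h
    · right
      have : p = (v.val, u.val) := by
        rw [← Prod.swap_swap p, he]
        rfl
      exact this ▸ hp

/-- The colours. -/
def cTab (a b : ℕ) : ℕ :=
  if (min a b, max a b) ∈ ([(0, 3), (1, 5), (4, 6)] : List (ℕ × ℕ)) then 3
  else if (min a b, max a b) ∈ ([(0, 4), (3, 5), (2, 6)] : List (ℕ × ℕ)) then 4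
  else if (min a b, max a b) = (0, 1) then 0
  else if (min a b, max a b) = (0, 2) then 1
  else 2

theorem cTab_comm (a b : ℕ) : cTab a b = cTab b a := by
  unfold cTab
  rw [min_comm, max_comm]

/-- The colouring of `Gs` without a rainbow copy. -/
def phi0 (n : ℕ) : Sym2 (Fin n) → ℕ :=
  Sym2.lift ⟨fun u v => cTab u.val v.val, fun u v => cTab_comm u.val v.val⟩

theorem phi0_mk {n : ℕ} (u v : Fin n) : phi0 n s(u, v) = cTab u.val v.val := rfl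

theorem dec_proper : ∀ p ∈ A0, ∀ q ∈ A0, p.1 = q.1 → p.2 ≠ q.2 →
    cTab p.1 p.2 ≠ cTab q.1 q.2 := by
  decide +kernel

theorem dec_rainbow : ∀ p ∈ A0, ∀ q ∈ A0, p.2 = q.1 → ∀ r ∈ A0, q.2 = r.1 →
    ∀ s ∈ A0, [p.1, p.2, q.2, r.2, s.1, s.2].Nodup →
    dist4 (cTab p.1 p.2) (cTab q.1 q.2) (cTab r.1 r.2) (cTab s.1 s.2) = false := by
  decide +kernel

theorem gs_colour (n : ℕ) : Proper (Gs n) (phi0 n) ∧ ¬ HasRainbow P4K2 (Gs n) (phi0 n) := by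
  constructor
  · intro u v w huv huw hvw
    rw [gs_adj] at huv huw
    rw [phi0_mk, phi0_mk]
    exact dec_proper _ huv _ huw rfl (fun h => hvw (Fin.ext h))
  · rintro ⟨f, hf, hadj, hr⟩
    have h01 := (gs_adj _ _).1 (hadj _ _ adj01)
    have h12 := (gs_adj _ _).1 (hadj _ _ adj12)
    have h23 := (gs_adj _ _).1 (hadj _ _ adj23)
    have h45 := (gs_adj _ _).1 (hadj _ _ adj45)
    have hnd : [(f 0).val, (f 1).val, (f 2).val, (f 3).val, (f 4).val, (f 5).val].Nodup := by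
      have hg : Function.Injective (fun i => (f i).val) :=
        fun i j h => hf (Fin.ext h)
      have := (List.nodup_finRange 6).map hg
      exact this
    have h := dec_rainbow _ h01 _ h12 rfl _ h23 rfl _ h45 hnd
    have hne : ∀ a b c d, P4K2.Adj a b → P4K2.Adj c d → s(a, b) ≠ s(c, d) →
        cTab (f a).val (f b).val ≠ cTab (f c).val (f d).val := fun a b c d h1 h2 h3 =>
      hr a b c d h1 h2 h3
    have n1 := hne _ _ _ _ adj01 adj12 (by decide)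
    have n2 := hne _ _ _ _ adj01 adj23 (by decide)
    have n3 := hne _ _ _ _ adj01 adj45 (by decide)
    have n4 := hne _ _ _ _ adj12 adj23 (by decide)
    have n5 := hne _ _ _ _ adj12 adj45 (by decide)
    have n6 := hne _ _ _ _ adj23 adj45 (by decide)
    have : dist4 (cTab (f 0).val (f 1).val) (cTab (f 1).val (f 2).val)
        (cTab (f 2).val (f 3).val) (cTab (f 4).val (f 5).val) = true := by
      simp [dist4, n1, n2, n3, n4, n5, n6]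
    rw [this] at h
    exact absurd h (by simp)

theorem gs_card (n : ℕ) (hn : 9 ≤ n) : (Gs n).edgeSet.ncard ≤ 9 := by
  classical
  let emb : ℕ → Fin n := fun k => if h : k < n then ⟨k, h⟩ else ⟨0, by omega⟩
  have hsub : (Gs n).edgeSet ⊆
      ((E0.map (fun p => s(emb p.1, emb p.2))).toFinset : Set (Sym2 (Fin n))) := by
    intro e he
    induction e with
    | _ u v =>
      rw [mem_edgeSet] at he
      rw [Finset.mem_coe, List.mem_toFinset, List.mem_map]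
      have hemb : ∀ w : Fin n, emb w.val = w := by
        intro w
        simp [emb, w.isLt]
      rcases he with h | h
      · exact ⟨_, h, by simp only [hemb]⟩
      · exact ⟨_, h, by simp only [hemb]; exact Sym2.eq_swap⟩
  refine (Set.ncard_le_ncard hsub (Finset.finite_toSet _)).trans ?_
  rw [Set.ncard_coe_finset]
  exact (List.toFinset_card_le _).trans (by simp [E0])

/-- The nine vertices used for an added edge. -/
def vf {n : ℕ} (hn : 9 ≤ n) (x y : Fin n) (i : ℕ) : Fin n :=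
  if h : i < 7 then ⟨i, by omega⟩ else if i = 7 then x else y

theorem vf_lt {n : ℕ} (hn : 9 ≤ n) (x y : Fin n) (i : ℕ) (hi : i < 7) :
    vf hn x y i = ⟨i, by omega⟩ := by
  simp [vf, hi]

theorem vf_7 {n : ℕ} (hn : 9 ≤ n) (x y : Fin n) : vf hn x y 7 = x := by simp [vf]

theorem vf_8 {n : ℕ} (hn : 9 ≤ n) (x y : Fin n) : vf hn x y 8 = y := by simp [vf]

theorem vf_inj {n : ℕ} (hn : 9 ≤ n) (x y : Fin n) (hx : 7 ≤ x.val) (hy : 7 ≤ y.val)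
    (hxy : x ≠ y) (i j : ℕ) (hi : i < 9) (hj : j < 9) (h : vf hn x y i = vf hn x y j) :
    i = j := by
  have hxy' : x.val ≠ y.val := fun h => hxy (Fin.ext h)
  have h' := congrArg Fin.val h
  unfold vf at h'
  split_ifs at h' with h1 h2 h3 h4 h5 h6 <;> (try simp only at h') <;> omega

theorem E0_lt : ∀ i, i < 9 → (ed E0 i).1 < 7 ∧ (ed E0 i).2 < 7 ∧ ed E0 i ∈ E0 := by
  decide

theorem ed_app (pq : ℕ × ℕ) (i : ℕ) (hi : i < 9) : ed (E0 ++ [pq]) i = ed E0 i := by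
  interval_cases i <;> rfl

theorem ed_last (pq : ℕ × ℕ) : ed (E0 ++ [pq]) 9 = pq := rfl

theorem core {n : ℕ} (hn : 9 ≤ n) (u v : Fin n) (huv : u ≠ v) (φ : Sym2 (Fin n) → ℕ)
    (hφ : Proper (Gs n ⊔ edge u v) φ) (x y : Fin n) (hx : 7 ≤ x.val) (hy : 7 ≤ y.val)
    (hxy : x ≠ y) (pq : ℕ × ℕ) (hpq : pq ∈ caseList)
    (h : s(vf hn x y pq.1, vf hn x y pq.2) = s(u, v)) :
    HasRainbow P4K2 (Gs n ⊔ edge u v) φ := by
  refine forced _ φ hφ pq (List.all_eq_true.1 all_cases pq hpq) (vf hn x y)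
    (vf_inj hn x y hx hy hxy) ?_
  intro i hi
  have hi' : i < 10 := hi
  rcases Nat.lt_or_ge i 9 with h9 | h9
  · rw [ed_app pq i h9]
    obtain ⟨h1, h2, h3⟩ := E0_lt i h9
    rw [sup_adj]
    left
    rw [vf_lt hn x y _ h1, vf_lt hn x y _ h2]
    exact Or.inl h3
  · have h10 : i = 9 := by omega
    subst h10
    rw [ed_last, sup_adj]
    right
    rw [edge_adj]
    rcases Sym2.eq_iff.1 h with ⟨h1, h2⟩ | ⟨h1, h2⟩
    · rw [h1, h2]
      exact ⟨Or.inl ⟨rfl, rfl⟩, huv⟩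
    · rw [h1, h2]
      exact ⟨Or.inr ⟨rfl, rfl⟩, huv.symm⟩

theorem dec_pairs' : ∀ a b : Fin 7, a ≠ b → (a.val, b.val) ∉ A0 →
    (a.val, b.val) ∈ caseList ∨ (b.val, a.val) ∈ caseList := by
  decide +kernel

theorem dec_pairs (a : ℕ) (ha : a < 7) (b : ℕ) (hb : b < 7) (hab : a ≠ b) (h : (a, b) ∉ A0) :
    (a, b) ∈ caseList ∨ (b, a) ∈ caseList :=
  dec_pairs' ⟨a, ha⟩ ⟨b, hb⟩ (fun h => hab (congrArg Fin.val h)) h

theorem dec_seven : ∀ a, a < 7 → (a, 7) ∈ caseList := by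
  decide

theorem gs_saturated (n : ℕ) (hn : 9 ≤ n) : RainbowSaturated P4K2 (Gs n) := by
  refine ⟨⟨phi0 n, gs_colour n⟩, ?_⟩
  intro u v huv hadj φ hφ
  rw [gs_adj] at hadj
  rcases Nat.lt_or_ge u.val 7 with hu | hu <;> rcases Nat.lt_or_ge v.val 7 with hv | hv
  · have hne : u.val ≠ v.val := fun h => huv (Fin.ext h)
    have e1 := vf_lt hn ⟨7, by omega⟩ ⟨8, by omega⟩ u.val hu
    have e2 := vf_lt hn ⟨7, by omega⟩ ⟨8, by omega⟩ v.val hv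
    rcases dec_pairs _ hu _ hv hne hadj with h | h
    · exact core hn u v huv φ hφ ⟨7, by omega⟩ ⟨8, by omega⟩ (by simp) (by simp) (by simp) _ h
        (by rw [e1, e2])
    · exact core hn u v huv φ hφ ⟨7, by omega⟩ ⟨8, by omega⟩ (by simp) (by simp) (by simp) _ h
        (by rw [e1, e2]; exact Sym2.eq_swap)
  · obtain ⟨y, hy, hvy⟩ : ∃ y : Fin n, 7 ≤ y.val ∧ v ≠ y := by
      by_cases h7 : v.val = 7
      · exact ⟨⟨8, by omega⟩, by simp, fun h => by rw [h] at h7; simp at h7⟩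
      · exact ⟨⟨7, by omega⟩, by simp, fun h => h7 (by rw [h])⟩
    have e1 := vf_lt hn v y u.val hu
    refine core hn u v huv φ hφ v y hv hy hvy _ (dec_seven _ hu) ?_
    rw [e1, vf_7]
  · obtain ⟨y, hy, huy⟩ : ∃ y : Fin n, 7 ≤ y.val ∧ u ≠ y := by
      by_cases h7 : u.val = 7
      · exact ⟨⟨8, by omega⟩, by simp, fun h => by rw [h] at h7; simp at h7⟩
      · exact ⟨⟨7, by omega⟩, by simp, fun h => h7 (by rw [h])⟩
    have e1 := vf_lt hn u y v.val hv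
    refine core hn u v huv φ hφ u y hu hy huy _ (dec_seven _ hv) ?_
    rw [e1, vf_7]
    exact Sym2.eq_swap
  · refine core hn u v huv φ hφ u v hu hv huv (7, 8) (by decide) ?_
    rw [vf_7, vf_8]

/-! ### The lower bound `sat ≥ 10` -/

section lower

theorem sup_edge {V : Type} (G : SimpleGraph V) {u v a b : V} (h : (G ⊔ edge u v).Adj a b) :
    G.Adj a b ∨ (a = u ∧ b = v) ∨ (a = v ∧ b = u) := by
  rw [sup_adj, edge_adj] at h
  rcases h with h | ⟨⟨h1, h2⟩ | ⟨h1, h2⟩, _⟩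
  · exact Or.inl h
  · right; left; exact ⟨by rw [h1], by rw [h2]⟩
  · right; right; exact ⟨by rw [h1], by rw [h2]⟩

theorem dec_nb : ∀ i : Fin 6, ∃ k, P4K2.Adj i k := by decide

theorem dec_leaf : ∀ i j k : Fin 6, i ≠ j → P4K2.Adj i k → P4K2.Adj j k →
    ∃ m, (P4K2.Adj i m ∨ P4K2.Adj j m) ∧ m ≠ k := by
  decide

variable {V : Type} (G : SimpleGraph V)

theorem exists_path (hG : Saturated P4K2 G) (x y : V) (hxy : x ≠ y) (hx : ∀ w, ¬ G.Adj x w)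
    (hy : ∀ w, ¬ G.Adj y w) : ∃ f : Fin 6 → V, f 0 ≠ f 1 ∧ f 0 ≠ f 2 ∧ f 0 ≠ f 3 ∧ f 1 ≠ f 2 ∧
      f 1 ≠ f 3 ∧ f 2 ≠ f 3 ∧ G.Adj (f 0) (f 1) ∧ G.Adj (f 1) (f 2) ∧ G.Adj (f 2) (f 3) := by
  obtain ⟨f, finj, fadj⟩ := hG.2 x y hxy (hx y)
  have nx : ∀ w, (G ⊔ edge x y).Adj x w → w = y := by
    intro w h
    rcases sup_edge G h with h | ⟨_, h⟩ | ⟨h, _⟩
    · exact absurd h (hx w)
    · exact h
    · exact absurd h hxy
  have ny : ∀ w, (G ⊔ edge x y).Adj y w → w = x := by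
    intro w h
    rcases sup_edge G h with h | ⟨h, _⟩ | ⟨_, h⟩
    · exact absurd h (hy w)
    · exact absurd h.symm hxy
    · exact h
  have real : ∀ i j k, P4K2.Adj i j → P4K2.Adj j k → i ≠ k → G.Adj (f i) (f j) := by
    intro i j k hij hjk hik
    have h2 := fadj _ _ hjk
    rcases sup_edge G (fadj _ _ hij) with h | ⟨h3, h4⟩ | ⟨h3, h4⟩
    · exact h
    · rw [h4] at h2
      exact absurd (finj (h3.trans (ny _ h2).symm)) hik
    · rw [h4] at h2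
      exact absurd (finj (h3.trans (nx _ h2).symm)) hik
  have ne : ∀ i j : Fin 6, i ≠ j → f i ≠ f j := fun i j h h' => h (finj h')
  exact ⟨f, ne _ _ (by decide), ne _ _ (by decide), ne _ _ (by decide), ne _ _ (by decide),
    ne _ _ (by decide), ne _ _ (by decide), real 0 1 2 adj01 adj12 (by decide),
    real 1 2 3 adj12 adj23 (by decide),
    (real 3 2 1 adj23.symm adj12.symm (by decide)).symm⟩

theorem leafless (hG : Saturated P4K2 G) (x : V) (hx : ∀ w, ¬ G.Adj x w) (r z : V)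
    (hrz : G.Adj r z) : ∃ z', G.Adj r z' ∧ z' ≠ z := by
  classical
  by_contra hcon
  push Not at hcon
  have hxz : x ≠ z := by rintro rfl; exact hx r hrz.symm
  have hxr : x ≠ r := by rintro rfl; exact hx z hrz
  obtain ⟨f, finj, fadj⟩ := hG.2 x z hxz (hx z)
  have nx : ∀ w, (G ⊔ edge x z).Adj x w → w = z := by
    intro w h
    rcases sup_edge G h with h | ⟨_, h⟩ | ⟨h, _⟩
    · exact absurd h (hx w)
    · exact h
    · exact absurd h hxz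
  have nr : ∀ w, (G ⊔ edge x z).Adj r w → w = z := by
    intro w h
    rcases sup_edge G h with h | ⟨h, _⟩ | ⟨h, _⟩
    · exact hcon w h
    · exact absurd h.symm hxr
    · exact absurd h (G.ne_of_adj hrz)
  by_cases hxf : ∃ i, f i = x
  · obtain ⟨i, hi⟩ := hxf
    by_cases hrf : ∃ j, f j = r
    · obtain ⟨j, hj⟩ := hrf
      have hij : i ≠ j := by rintro rfl; exact hxr (hi.symm.trans hj)
      obtain ⟨k, hk⟩ := dec_nb i
      have fx : ∀ m, P4K2.Adj i m → f m = z := by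
        intro m hm
        have h := fadj _ _ hm
        rw [hi] at h
        exact nx _ h
      have fr : ∀ m, P4K2.Adj j m → f m = z := by
        intro m hm
        have h := fadj _ _ hm
        rw [hj] at h
        exact nr _ h
      have fk : f k = z := fx k hk
      obtain ⟨k', hk'⟩ := dec_nb j
      have fk' : f k' = z := fr k' hk'
      have hkk : k = k' := finj (fk.trans fk'.symm)
      subst hkk
      obtain ⟨m, hm, hmk⟩ := dec_leaf i j k hij hk hk'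
      rcases hm with hm | hm
      · exact hmk (finj ((fx m hm).trans fk.symm))
      · exact hmk (finj ((fr m hm).trans fk.symm))
    · push Not at hrf
      apply hG.1
      refine ⟨fun j => if j = i then r else f j, ?_, ?_⟩
      · intro a b hab
        simp only at hab
        by_cases ha : a = i <;> by_cases hb : b = i
        · rw [ha, hb]
        · rw [if_pos ha, if_neg hb] at hab
          exact absurd hab.symm (hrf b)
        · rw [if_neg ha, if_pos hb] at hab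
          exact absurd hab (hrf a)
        · rw [if_neg ha, if_neg hb] at hab
          exact finj hab
      · intro a b hab
        show G.Adj (if a = i then r else f a) (if b = i then r else f b)
        have hab' := fadj a b hab
        by_cases ha : a = i
        · have hb : b ≠ i := fun hb => P4K2.ne_of_adj hab (ha.trans hb.symm)
          rw [if_pos ha, if_neg hb]
          rw [ha, hi] at hab'
          rw [nx _ hab']
          exact hrz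
        · by_cases hb : b = i
          · rw [if_neg ha, if_pos hb]
            rw [hb, hi] at hab'
            rw [nx _ hab'.symm]
            exact hrz.symm
          · rw [if_neg ha, if_neg hb]
            rcases sup_edge G hab' with h | ⟨h, _⟩ | ⟨_, h⟩
            · exact h
            · exact absurd (finj (h.trans hi.symm)) ha
            · exact absurd (finj (h.trans hi.symm)) hb
  · push Not at hxf
    apply hG.1
    refine ⟨f, finj, fun a b hab => ?_⟩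
    rcases sup_edge G (fadj a b hab) with h | ⟨h, _⟩ | ⟨_, h⟩
    · exact h
    · exact absurd h (hxf a)
    · exact absurd h (hxf b)

/-- Adjacency of six vertices `a b c d r s` with `a b c d` a path and `r, s` non-adjacent. -/
def M (ac ad bd ra rb rc rd sa sb sc sd : Bool) (i j : Fin 6) : Bool :=
  match (min i.val j.val, max i.val j.val) with
  | (0, 1) => true
  | (1, 2) => true
  | (2, 3) => true
  | (0, 2) => ac
  | (0, 3) => ad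
  | (1, 3) => bd
  | (0, 4) => ra
  | (1, 4) => rb
  | (2, 4) => rc
  | (3, 4) => rd
  | (0, 5) => sa
  | (1, 5) => sb
  | (2, 5) => sc
  | (3, 5) => sd
  | _ => false

def T9 : List (Fin 6 → Fin 6) :=
  [![4, 2, 3, 5, 0, 1], ![4, 3, 2, 5, 0, 1], ![3, 2, 1, 5, 0, 4], ![3, 2, 1, 4, 0, 5],
   ![1, 2, 3, 5, 0, 4], ![4, 2, 1, 5, 0, 3], ![1, 3, 2, 4, 0, 5], ![0, 2, 3, 4, 1, 5],
   ![1, 2, 3, 4, 0, 5]]

theorem T9_inj : ∀ t ∈ T9, Function.Injective t := by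
  intro t ht
  unfold T9 at ht
  fin_cases ht <;> decide

def hyp9 (m : Fin 6 → Fin 6 → Bool) : Bool :=
  T9.all (fun t => !(m (t 0) (t 1) && m (t 1) (t 2) && m (t 2) (t 3) && m (t 4) (t 5)))

def two (m : Fin 6 → Fin 6 → Bool) (a : Fin 6) : Bool :=
  decide (∃ i j : Fin 6, i.val < 4 ∧ j.val < 4 ∧ i ≠ j ∧ m a i = true ∧ m a j = true)

def covd (m : Fin 6 → Fin 6 → Bool) : Bool :=
  decide (∃ p q : Fin 6, p.val < 4 ∧ q.val < 4 ∧ ∀ i j : Fin 6,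
    m i j = true → i = p ∨ i = q ∨ j = p ∨ j = q)

def tot (m : Fin 6 → Fin 6 → Bool) : Bool := !(hyp9 m) || !(two m 4) || !(two m 5) || covd m

theorem dec_pair : ∀ ac ad bd ra rb rc rd sa sb sc sd : Bool,
    tot (M ac ad bd ra rb rc rd sa sb sc sd) = true := by
  decide +kernel

theorem pair_cover (hfree : ¬ Contains P4K2 G) (v : Fin 6 → V) (hv : Function.Injective v)
    (h01 : G.Adj (v 0) (v 1)) (h12 : G.Adj (v 1) (v 2)) (h23 : G.Adj (v 2) (v 3))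
    (h45 : ¬ G.Adj (v 4) (v 5))
    (hr : ∃ i j : Fin 6, i.val < 4 ∧ j.val < 4 ∧ i ≠ j ∧ G.Adj (v 4) (v i) ∧ G.Adj (v 4) (v j))
    (hs : ∃ i j : Fin 6, i.val < 4 ∧ j.val < 4 ∧ i ≠ j ∧ G.Adj (v 5) (v i) ∧ G.Adj (v 5) (v j)) :
    ∃ p q : Fin 6, p.val < 4 ∧ q.val < 4 ∧ ∀ i j : Fin 6,
      G.Adj (v i) (v j) → i = p ∨ i = q ∨ j = p ∨ j = q := by
  classical
  set m : Fin 6 → Fin 6 → Bool := M (decide (G.Adj (v 0) (v 2))) (decide (G.Adj (v 0) (v 3)))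
    (decide (G.Adj (v 1) (v 3))) (decide (G.Adj (v 0) (v 4))) (decide (G.Adj (v 1) (v 4)))
    (decide (G.Adj (v 2) (v 4))) (decide (G.Adj (v 3) (v 4))) (decide (G.Adj (v 0) (v 5)))
    (decide (G.Adj (v 1) (v 5))) (decide (G.Adj (v 2) (v 5))) (decide (G.Adj (v 3) (v 5)))
    with hm
  have hsymm : ∀ i j, m i j = m j i := by
    intro i j
    rw [hm]
    unfold M
    rw [min_comm, max_comm]
  have hlt : ∀ i j : Fin 6, i < j → (m i j = true ↔ G.Adj (v i) (v j)) := by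
    intro i j hij
    fin_cases i <;> fin_cases j <;> first
      | (exact absurd hij (by decide))
      | (rw [hm]; simp [M, h01, h12, h23, h45])
  have hiff : ∀ i j : Fin 6, (m i j = true ↔ G.Adj (v i) (v j)) := by
    intro i j
    rcases lt_trichotomy i j with h | h | h
    · exact hlt i j h
    · subst h
      constructor
      · intro h
        exfalso
        revert h
        rw [hm]
        fin_cases i <;> simp [M]
      · intro h; exact absurd h (G.irrefl)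
    · rw [hsymm, G.adj_comm]
      exact hlt j i h
  have htot : tot m = true := dec_pair _ _ _ _ _ _ _ _ _ _ _
  have h1 : hyp9 m = true := by
    unfold hyp9
    rw [List.all_eq_true]
    intro t ht
    by_contra hcon
    simp only [Bool.not_eq_true', Bool.not_eq_false, Bool.and_eq_true] at hcon
    obtain ⟨⟨⟨c1, c2⟩, c3⟩, c4⟩ := hcon
    apply hfree
    refine ⟨v ∘ t, hv.comp (T9_inj t ht), mk_hom G (v ∘ t) ?_ ?_ ?_ ?_⟩
    · exact (hiff _ _).1 c1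
    · exact (hiff _ _).1 c2
    · exact (hiff _ _).1 c3
    · exact (hiff _ _).1 c4
  have h2 : two m 4 = true := by
    unfold two
    rw [decide_eq_true_eq]
    obtain ⟨i, j, h1, h2, h3, h4, h5⟩ := hr
    exact ⟨i, j, h1, h2, h3, (hiff _ _).2 h4, (hiff _ _).2 h5⟩
  have h3 : two m 5 = true := by
    unfold two
    rw [decide_eq_true_eq]
    obtain ⟨i, j, h1, h2, h3, h4, h5⟩ := hs
    exact ⟨i, j, h1, h2, h3, (hiff _ _).2 h4, (hiff _ _).2 h5⟩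
  unfold tot at htot
  rw [h1, h2, h3] at htot
  have h4 : covd m = true := by simpa using htot
  unfold covd at h4
  rw [decide_eq_true_eq] at h4
  obtain ⟨p, q, hp, hq, hpq⟩ := h4
  exact ⟨p, q, hp, hq, fun i j h => hpq i j ((hiff i j).2 h)⟩

end lower

section lower2

variable {V : Type} [Fintype V] (G : SimpleGraph V)

theorem small (hG : Saturated P4K2 G) (S : Finset V) (hS : S.card ≤ 5)
    (hsub : ∀ v w, G.Adj v w → v ∈ S) (p : V) (hp : p ∈ S) (q : V) (hq : q ∈ S) (hpq : p ≠ q)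
    (hn : ¬ G.Adj p q) : False := by
  classical
  obtain ⟨f, finj, fadj⟩ := hG.2 p q hpq hn
  have hf : ∀ i, f i ∈ S := by
    intro i
    obtain ⟨k, hk⟩ := dec_nb i
    rcases sup_edge G (fadj i k hk) with h | ⟨h, _⟩ | ⟨h, _⟩
    · exact hsub _ _ h
    · rw [h]; exact hp
    · rw [h]; exact hq
  have h1 : (univ.image f).card = 6 := by
    rw [Finset.card_image_of_injective _ finj]
    rfl
  have h2 : univ.image f ⊆ S := by
    intro v hv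
    rw [Finset.mem_image] at hv
    obtain ⟨i, _, rfl⟩ := hv
    exact hf i
  have := Finset.card_le_card h2
  omega

theorem cover_false (hG : Saturated P4K2 G) (x u w : V) (hx : ∀ v, ¬ G.Adj x v)
    (hu : ∃ v, G.Adj u v) (hcov : ∀ s t, G.Adj s t → s = u ∨ s = w ∨ t = u ∨ t = w) : False := by
  have hxu : x ≠ u := by
    rintro rfl
    obtain ⟨v, hv⟩ := hu
    exact hx v hv
  obtain ⟨f, finj, fadj⟩ := hG.2 x u hxu (hx u)
  have key : ∀ i j, P4K2.Adj i j → (f i = u ∨ f i = w) ∨ (f j = u ∨ f j = w) := by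
    intro i j hij
    rcases sup_edge G (fadj i j hij) with h | ⟨_, h⟩ | ⟨h, _⟩
    · have := hcov _ _ h
      tauto
    · exact Or.inr (Or.inl h)
    · exact Or.inl (Or.inl h)
  obtain ⟨k1, hk1, h1⟩ : ∃ k : Fin 6, (k = 0 ∨ k = 1) ∧ (f k = u ∨ f k = w) := by
    rcases key 0 1 adj01 with h | h
    · exact ⟨0, Or.inl rfl, h⟩
    · exact ⟨1, Or.inr rfl, h⟩
  obtain ⟨k2, hk2, h2⟩ : ∃ k : Fin 6, (k = 2 ∨ k = 3) ∧ (f k = u ∨ f k = w) := by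
    rcases key 2 3 adj23 with h | h
    · exact ⟨2, Or.inl rfl, h⟩
    · exact ⟨3, Or.inr rfl, h⟩
  obtain ⟨k3, hk3, h3⟩ : ∃ k : Fin 6, (k = 4 ∨ k = 5) ∧ (f k = u ∨ f k = w) := by
    rcases key 4 5 adj45 with h | h
    · exact ⟨4, Or.inl rfl, h⟩
    · exact ⟨5, Or.inr rfl, h⟩
  have n12 : k1 ≠ k2 := by rcases hk1 with rfl | rfl <;> rcases hk2 with rfl | rfl <;> decide
  have n13 : k1 ≠ k3 := by rcases hk1 with rfl | rfl <;> rcases hk3 with rfl | rfl <;> decide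
  have n23 : k2 ≠ k3 := by rcases hk2 with rfl | rfl <;> rcases hk3 with rfl | rfl <;> decide
  rcases h1 with h1 | h1 <;> rcases h2 with h2 | h2 <;> rcases h3 with h3 | h3 <;> first
    | exact n12 (finj (h1.trans h2.symm))
    | exact n13 (finj (h1.trans h3.symm))
    | exact n23 (finj (h2.trans h3.symm))

theorem lower (hG : Saturated P4K2 G) (hV : 21 ≤ Fintype.card V) : 10 ≤ G.edgeSet.ncard := by
  classical
  have hE : G.edgeSet.ncard = G.edgeFinset.card := by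
    rw [← coe_edgeFinset, Set.ncard_coe_finset]
  have hsum := G.sum_degrees_eq_twice_card_edges
  have hge : ∀ (S : Finset V) (k : ℕ), (∀ v ∈ S, k ≤ G.degree v) →
      S.card * k ≤ 2 * G.edgeFinset.card := by
    intro S k hk
    rw [← hsum, ← smul_eq_mul]
    refine (Finset.card_nsmul_le_sum S _ k hk).trans ?_
    exact Finset.sum_le_sum_of_subset (Finset.subset_univ S)
  rw [hE]
  by_cases hiso : ∃ x y, x ≠ y ∧ (∀ w, ¬ G.Adj x w) ∧ ∀ w, ¬ G.Adj y w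
  · obtain ⟨x, y, hxy, hx, hy⟩ := hiso
    obtain ⟨g, g01, g02, g03, g12, g13, g23, a01, a12, a23⟩ := exists_path G hG x y hxy hx hy
    set a := g 0
    set b := g 1
    set c := g 2
    set d := g 3
    -- no edges outside the path
    have hinj : ∀ r s, r ≠ s → (r ≠ a ∧ r ≠ b ∧ r ≠ c ∧ r ≠ d) →
        (s ≠ a ∧ s ≠ b ∧ s ≠ c ∧ s ≠ d) → Function.Injective (![a, b, c, d, r, s] : Fin 6 → V) := by
      intro r s hrs hr hs i j hij
      obtain ⟨r1, r2, r3, r4⟩ := hr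
      obtain ⟨s1, s2, s3, s4⟩ := hs
      fin_cases i <;> fin_cases j <;> first
        | rfl
        | (exfalso; simp at hij; first
            | exact g01 hij | exact g02 hij | exact g03 hij | exact g12 hij | exact g13 hij
            | exact g23 hij | exact r1 hij | exact r2 hij | exact r3 hij | exact r4 hij
            | exact s1 hij | exact s2 hij | exact s3 hij | exact s4 hij | exact hrs hij
            | exact g01 hij.symm | exact g02 hij.symm | exact g03 hij.symm | exact g12 hij.symm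
            | exact g13 hij.symm | exact g23 hij.symm | exact r1 hij.symm | exact r2 hij.symm
            | exact r3 hij.symm | exact r4 hij.symm | exact s1 hij.symm | exact s2 hij.symm
            | exact s3 hij.symm | exact s4 hij.symm | exact hrs hij.symm)
    have hind : ∀ r s, (r ≠ a ∧ r ≠ b ∧ r ≠ c ∧ r ≠ d) →
        (s ≠ a ∧ s ≠ b ∧ s ≠ c ∧ s ≠ d) → ¬ G.Adj r s := by
      intro r s hr hs hadj
      apply hG.1
      exact ⟨![a, b, c, d, r, s], hinj r s (G.ne_of_adj hadj) hr hs,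
        mk_hom G _ a01 a12 a23 hadj⟩
    -- two neighbours on the path
    have htwo : ∀ (r s : V), (r ≠ a ∧ r ≠ b ∧ r ≠ c ∧ r ≠ d) → (∃ w, G.Adj r w) →
        ∃ i j : Fin 6, i.val < 4 ∧ j.val < 4 ∧ i ≠ j ∧ ∀ s t : V,
          G.Adj r ((![a, b, c, d, s, t] : Fin 6 → V) i) ∧
          G.Adj r ((![a, b, c, d, s, t] : Fin 6 → V) j) := by
      intro r _ hr ⟨z, hz⟩
      obtain ⟨z', hz', hne⟩ := leafless G hG x hx r z hz
      have hidx : ∀ w, G.Adj r w → ∃ i : Fin 6, i.val < 4 ∧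
          ∀ s t : V, (![a, b, c, d, s, t] : Fin 6 → V) i = w := by
        intro w hw
        by_cases h1 : w = a
        · exact ⟨0, by decide, fun s t => h1.symm⟩
        by_cases h2 : w = b
        · exact ⟨1, by decide, fun s t => h2.symm⟩
        by_cases h3 : w = c
        · exact ⟨2, by decide, fun s t => h3.symm⟩
        by_cases h4 : w = d
        · exact ⟨3, by decide, fun s t => h4.symm⟩
        exact absurd hw (hind r w hr ⟨h1, h2, h3, h4⟩)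
      obtain ⟨i, hi, hi'⟩ := hidx z hz
      obtain ⟨j, hj, hj'⟩ := hidx z' hz'
      refine ⟨i, j, hi, hj, ?_, fun s t => ⟨by rw [hi']; exact hz, by rw [hj']; exact hz'⟩⟩
      rintro rfl
      exact hne ((hj' a a).symm.trans (hi' a a))
    by_cases h2 : ∃ r s, r ≠ s ∧ (r ≠ a ∧ r ≠ b ∧ r ≠ c ∧ r ≠ d) ∧
        (s ≠ a ∧ s ≠ b ∧ s ≠ c ∧ s ≠ d) ∧ (∃ w, G.Adj r w) ∧ ∃ w, G.Adj s w
    · exfalso
      obtain ⟨r, s, hrs, hr, hs, hra, hsa⟩ := h2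
      -- the pair lemma in terms of vertices
      have hpair : ∀ s', s' ≠ r → (s' ≠ a ∧ s' ≠ b ∧ s' ≠ c ∧ s' ≠ d) → (∃ w, G.Adj s' w) →
          ∃ u w, (∀ t, G.Adj r t → t = u ∨ t = w) ∧ (∀ t, G.Adj s' t → t = u ∨ t = w) ∧
            ∀ t t', (t = a ∨ t = b ∨ t = c ∨ t = d) → (t' = a ∨ t' = b ∨ t' = c ∨ t' = d) →
              G.Adj t t' → t = u ∨ t = w ∨ t' = u ∨ t' = w := by
        intro s' hs'r hs' hs'a
        set v : Fin 6 → V := ![a, b, c, d, r, s'] with hv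
        obtain ⟨i1, j1, e1, e2, e3, e4⟩ := htwo r r hr hra
        obtain ⟨i2, j2, f1, f2, f3, f4⟩ := htwo s' s' hs' hs'a
        have vinj := hinj r s' (Ne.symm hs'r) hr hs'
        obtain ⟨p, q, hp, hq, hpq⟩ := pair_cover G hG.1 v vinj a01 a12 a23
          (hind r s' hr hs') ⟨i1, j1, e1, e2, e3, e4 r s'⟩ ⟨i2, j2, f1, f2, f3, f4 r s'⟩
        have hidx : ∀ w, (w = a ∨ w = b ∨ w = c ∨ w = d) → ∃ i : Fin 6, v i = w := by
          rintro w (h | h | h | h)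
          · exact ⟨0, h.symm⟩
          · exact ⟨1, h.symm⟩
          · exact ⟨2, h.symm⟩
          · exact ⟨3, h.symm⟩
        have hon : ∀ r', (r' ≠ a ∧ r' ≠ b ∧ r' ≠ c ∧ r' ≠ d) → ∀ w, G.Adj r' w →
            (w = a ∨ w = b ∨ w = c ∨ w = d) := by
          intro r' hr' w hw
          by_contra hcon
          push Not at hcon
          exact hind r' w hr' hcon hw
        refine ⟨v p, v q, ?_, ?_, ?_⟩
        · intro t ht
          obtain ⟨i, rfl⟩ := hidx t (hon r hr t ht)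
          rcases hpq 4 i ht with h | h | h | h
          · rw [← h] at hp; exact absurd hp (by decide)
          · rw [← h] at hq; exact absurd hq (by decide)
          · left; rw [h]
          · right; rw [h]
        · intro t ht
          obtain ⟨i, rfl⟩ := hidx t (hon s' hs' t ht)
          rcases hpq 5 i ht with h | h | h | h
          · rw [← h] at hp; exact absurd hp (by decide)
          · rw [← h] at hq; exact absurd hq (by decide)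
          · left; rw [h]
          · right; rw [h]
        · intro t t' ht ht' hadj
          obtain ⟨i, rfl⟩ := hidx t ht
          obtain ⟨j, rfl⟩ := hidx t' ht'
          rcases hpq i j hadj with h | h | h | h
          · left; rw [h]
          · right; left; rw [h]
          · right; right; left; rw [h]
          · right; right; right; rw [h]
      obtain ⟨u, w, k1, k2, k3⟩ := hpair s (Ne.symm hrs) hs hsa
      -- both `u` and `w` are neighbours of `r`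
      obtain ⟨z, hz⟩ := hra
      obtain ⟨z', hz', hne⟩ := leafless G hG x hx r z hz
      have hNr : ∀ u' w', (∀ t, G.Adj r t → t = u' ∨ t = w') →
          (∀ t, (t = u' ∨ t = w') → (t = z ∨ t = z')) := by
        intro u' w' h t ht
        rcases h z hz with h1 | h1 <;> rcases h z' hz' with h2 | h2
        · exact absurd (h2.trans h1.symm) hne
        · rcases ht with h3 | h3
          · left; rw [h3, h1]
          · right; rw [h3, h2]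
        · rcases ht with h3 | h3
          · right; rw [h3, h2]
          · left; rw [h3, h1]
        · exact absurd (h2.trans h1.symm) hne
      refine cover_false G hG x z z' hx ⟨r, hz.symm⟩ ?_
      have hside : ∀ s' t, (s' ≠ a ∧ s' ≠ b ∧ s' ≠ c ∧ s' ≠ d) → G.Adj s' t →
          t = z ∨ t = z' := by
        intro s' t hs' hadj
        by_cases hs'r : s' = r
        · rw [hs'r] at hadj
          exact hNr u w k1 t (k1 t hadj)
        · obtain ⟨u', w', m1, m2, _⟩ := hpair s' hs'r hs' ⟨t, hadj⟩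
          exact hNr u' w' m1 t (m2 t hadj)
      intro s' t hadj
      by_cases hs' : s' = a ∨ s' = b ∨ s' = c ∨ s' = d
      · by_cases ht : t = a ∨ t = b ∨ t = c ∨ t = d
        · rcases k3 s' t hs' ht hadj with h | h | h | h
          · rcases hNr u w k1 s' (Or.inl h) with h' | h'
            · exact Or.inl h'
            · exact Or.inr (Or.inl h')
          · rcases hNr u w k1 s' (Or.inr h) with h' | h'
            · exact Or.inl h'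
            · exact Or.inr (Or.inl h')
          · exact Or.inr (Or.inr (hNr u w k1 t (Or.inl h)))
          · exact Or.inr (Or.inr (hNr u w k1 t (Or.inr h)))
        · push Not at ht
          rcases hside t s' ht hadj.symm with h | h
          · exact Or.inl h
          · exact Or.inr (Or.inl h)
      · push Not at hs'
        exact Or.inr (Or.inr (hside s' t hs' hadj))
    · push Not at h2
      by_cases h1 : ∃ r, (r ≠ a ∧ r ≠ b ∧ r ≠ c ∧ r ≠ d) ∧ ∃ w, G.Adj r w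
      · obtain ⟨r, hr, hra⟩ := h1
        have hsub : ∀ v w, G.Adj v w → v ∈ ({a, b, c, d, r} : Finset V) := by
          intro v w hvw
          simp only [Finset.mem_insert, Finset.mem_singleton]
          by_contra hcon
          push Not at hcon
          obtain ⟨c1, c2, c3, c4, c5⟩ := hcon
          exact h2 r v (Ne.symm c5) hr ⟨c1, c2, c3, c4⟩ hra w hvw
        obtain ⟨r1, r2, r3, r4⟩ := hr
        have hcard : ({a, b, c, d, r} : Finset V).card = 5 := by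
          rw [Finset.card_insert_of_notMem, Finset.card_insert_of_notMem,
            Finset.card_insert_of_notMem, Finset.card_insert_of_notMem, Finset.card_singleton]
          · simp only [Finset.mem_singleton]; exact Ne.symm r4
          · simp only [Finset.mem_insert, Finset.mem_singleton, not_or]
            exact ⟨g23, Ne.symm r3⟩
          · simp only [Finset.mem_insert, Finset.mem_singleton, not_or]
            exact ⟨g12, g13, Ne.symm r2⟩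
          · simp only [Finset.mem_insert, Finset.mem_singleton, not_or]
            exact ⟨g01, g02, g03, Ne.symm r1⟩
        have hall : ∀ p ∈ ({a, b, c, d, r} : Finset V), ∀ q ∈ ({a, b, c, d, r} : Finset V),
            p ≠ q → G.Adj p q := by
          intro p hp q hq hpq
          by_contra hn
          exact small G hG _ (by omega) hsub p hp q hq hpq hn
        have h5 := hge ({a, b, c, d, r} : Finset V) 4 (by
          intro v hv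
          rw [← G.card_neighborFinset_eq_degree]
          have : (({a, b, c, d, r} : Finset V).erase v).card = 4 := by
            rw [Finset.card_erase_of_mem hv, hcard]
          rw [← this]
          apply Finset.card_le_card
          intro w hw
          rw [Finset.mem_erase] at hw
          rw [mem_neighborFinset]
          exact hall v hv w hw.2 (Ne.symm hw.1))
        omega
      · exfalso
        push Not at h1
        have hsub : ∀ v w, G.Adj v w → v ∈ ({a, b, c, d, x} : Finset V) := by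
          intro v w hvw
          simp only [Finset.mem_insert, Finset.mem_singleton]
          by_contra hcon
          push Not at hcon
          obtain ⟨c1, c2, c3, c4, c5⟩ := hcon
          exact h1 v ⟨c1, c2, c3, c4⟩ w hvw
        refine small G hG _ Finset.card_le_five hsub x (by simp) a (by simp) ?_ (hx a)
        intro h
        rw [h] at hx
        exact hx _ a01
  · push Not at hiso
    have hge1 := hge (univ.filter (fun v => ∃ w, G.Adj v w)) 1 (by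
      intro v hv
      rw [Finset.mem_filter] at hv
      obtain ⟨w, hw⟩ := hv.2
      rw [← G.card_neighborFinset_eq_degree]
      exact Finset.card_pos.2 ⟨w, by rw [mem_neighborFinset]; exact hw⟩)
    have hc := Finset.card_filter_add_card_filter_not (s := (univ : Finset V))
      (fun v => ∃ w, G.Adj v w)
    have hle : (univ.filter (fun v => ¬ ∃ w, G.Adj v w)).card ≤ 1 := by
      rw [Finset.card_le_one]
      intro p hp q hq
      rw [Finset.mem_filter] at hp hq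
      by_contra hpq
      have hp' : ∀ w, ¬ G.Adj p w := fun w hw => hp.2 ⟨w, hw⟩
      obtain ⟨w, hw⟩ := hiso p q hpq hp'
      exact hq.2 ⟨w, hw⟩
    rw [Finset.card_univ] at hc
    omega

end lower2

/-- A saturated graph exists. -/
theorem exists_saturated (n : ℕ) : ∃ G : SimpleGraph (Fin n), Saturated P4K2 G := by
  classical
  have hfin : {G : SimpleGraph (Fin n) | ¬ Contains P4K2 G}.Finite := Set.toFinite _
  have hne : {G : SimpleGraph (Fin n) | ¬ Contains P4K2 G}.Nonempty := by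
    refine ⟨⊥, ?_⟩
    rintro ⟨f, _, hf⟩
    have := hf 0 1 adj01
    simp at this
  obtain ⟨G, hG⟩ := hfin.exists_maximal hne
  refine ⟨G, hG.prop, ?_⟩
  intro u v huv hadj
  by_contra hcon
  have hle : G ≤ G ⊔ edge u v := le_sup_left
  have := hG.le_of_ge hcon hle
  apply hadj
  apply this
  rw [sup_adj, edge_adj]
  exact Or.inr ⟨Or.inl ⟨rfl, rfl⟩, huv⟩

/-- **MP_e87155_co, Q1 (answer: yes).** For `H = P₄ ∪ K₂` the rainbow saturation number is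
smaller than the saturation number for all `n ≥ 21`: `sat*(n, H) ≤ 9 < 10 ≤ sat(n, H)`. The last
two clauses record that both minima are attained. -/
theorem result (n : ℕ) (hn : 21 ≤ n) :
    satStar n P4K2 < sat n P4K2 ∧ satStar n P4K2 ≤ 9 ∧ 10 ≤ sat n P4K2 ∧
      (∃ G : SimpleGraph (Fin n), Saturated P4K2 G ∧ G.edgeSet.ncard = sat n P4K2) ∧
      ∃ G : SimpleGraph (Fin n), RainbowSaturated P4K2 G ∧ G.edgeSet.ncard = satStar n P4K2 := by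
  have hne : {m | ∃ G : SimpleGraph (Fin n), Saturated P4K2 G ∧ G.edgeSet.ncard = m}.Nonempty := by
    obtain ⟨G, hG⟩ := exists_saturated n
    exact ⟨_, G, hG, rfl⟩
  have hmem : (Gs n).edgeSet.ncard ∈ {m | ∃ G : SimpleGraph (Fin n), RainbowSaturated P4K2 G ∧
      G.edgeSet.ncard = m} := ⟨Gs n, gs_saturated n (by omega), rfl⟩
  have hne' : {m | ∃ G : SimpleGraph (Fin n), RainbowSaturated P4K2 G ∧
      G.edgeSet.ncard = m}.Nonempty := ⟨_, hmem⟩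
  have h1 : satStar n P4K2 ≤ 9 := (Nat.sInf_le hmem).trans (gs_card n (by omega))
  have h2 := Nat.sInf_mem hne
  have h3 := Nat.sInf_mem hne'
  have h4 : 10 ≤ sat n P4K2 := by
    obtain ⟨G, hG, hc⟩ := h2
    have := lower G hG (by rw [Fintype.card_fin]; exact hn)
    rw [hc] at this
    exact this
  exact ⟨by omega, h1, h4, h2, h3⟩

end Pool.Agent.Results.MP_e87155_co.RainbowBelow
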